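import Pool.Agent.Helper30.BG.Goals

/-! Project BG (MP_66e6f4_an): packet MP, maximum principle. -/

open InnerProductSpace Metric Set Filter Topology MeasureTheory
open scoped ContDiff Laplacian

namespace Pool.Agent.Helper94.BG

open Pool.Agent.Helper30.BG

/-- Second derivative test, necessary condition. -/
theorem deriv_deriv_nonneg {φ : ℝ → ℝ} (hmin : IsLocalMin φ 0) (hc : ContinuousAt φ 0) :
    0 ≤ deriv (deriv φ) 0 := by
  by_contra hneg
  push Not at hneg
  have h0 : deriv φ 0 = 0 := hmin.deriv_eq_zero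
  have hmax : IsLocalMax φ 0 := isLocalMax_of_deriv_deriv_neg hneg h0 hc
  have heq : φ =ᶠ[𝓝 0] fun _ => φ 0 := by
    filter_upwards [hmin, hmax] with t h1 h2 using le_antisymm h2 h1
  have h1 : deriv φ =ᶠ[𝓝 0] fun _ => (0 : ℝ) := by
    have := heq.deriv
    simpa using this
  have h2 : deriv (deriv φ) 0 = 0 := by
    rw [h1.deriv_eq]
    simp
  linarith

theorem lap_nonneg {w : E3 → ℝ} {m : E3} (hw : ContDiffAt ℝ 2 w m) (hmin : IsLocalMin w m) :
    0 ≤ Δ w m := by
  rw [lap_eq hw]
  refine Finset.sum_nonneg fun i _ => ?_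
  set γ : ℝ → E3 := fun t => m + t • eb i with hγ
  have hγ0 : γ 0 = m := by simp [hγ]
  have hγd : ∀ t, HasDerivAt γ (eb i) t := by
    intro t
    have := ((hasDerivAt_id t).smul_const (eb i)).const_add m
    simpa [hγ] using this
  have hγc : ContinuousAt γ 0 := (hγd 0).continuousAt
  have ht : Tendsto γ (𝓝 0) (𝓝 m) := by
    have := hγc.tendsto
    rwa [hγ0] at this
  have h1 : deriv (fun t => w (γ t)) =ᶠ[𝓝 0] fun t => pd i w (γ t) := by
    filter_upwards [ht.eventually (hw.eventually (by simp))] with t ht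
    have := (ht.differentiableAt (by norm_num)).hasFDerivAt.comp_hasDerivAt t (hγd t)
    exact this.deriv
  have h2 : deriv (deriv fun t => w (γ t)) 0 = fderiv ℝ (pd i w) m (eb i) := by
    rw [h1.deriv_eq]
    have h3 : DifferentiableAt ℝ (fderiv ℝ w) m :=
      (hw.fderiv_right (m := 1) (by norm_num)).differentiableAt (by norm_num)
    have h4 : DifferentiableAt ℝ (pd i w) m := h3.clm_apply (differentiableAt_const _)
    have h5 : HasFDerivAt (pd i w) (fderiv ℝ (pd i w) m) (γ 0) := by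
      rw [hγ0]
      exact h4.hasFDerivAt
    exact (h5.comp_hasDerivAt 0 (hγd 0)).deriv
  rw [← h2]
  refine deriv_deriv_nonneg ?_ ?_
  · have : IsLocalMin (w ∘ γ) 0 := by
      have h6 : IsLocalMin w (γ 0) := by rwa [hγ0]
      exact h6.comp_continuous hγc
    exact this
  · have h6 : ContinuousAt w (γ 0) := by
      rw [hγ0]
      exact hw.continuousAt
    exact h6.comp hγc

theorem mp : S_MP := by
  intro Ω v g M hΩ hbd hcont hcd hg hL hfr x hx
  by_contra hneg
  push Not at hneg
  have hcomp : IsCompact (closure Ω) := hbd.isCompact_closure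
  set Λ : ℝ := 2 * max M 0 + 1 with hΛ
  have hΛ1 : 1 ≤ Λ := by
    have := le_max_right M 0
    linarith
  have hcexp : Continuous fun y : E3 => Real.exp (Λ * y 0) := by fun_prop
  obtain ⟨A, hA⟩ : ∃ A : ℝ, ∀ y ∈ closure Ω, Real.exp (Λ * y 0) ≤ A := by
    obtain ⟨A, hA⟩ := (hcomp.image hcexp).bddAbove
    exact ⟨A, fun y hy => hA ⟨y, hy, rfl⟩⟩
  have hApos : 0 < A := lt_of_lt_of_le (Real.exp_pos _) (hA x hx)
  set ε : ℝ := -v x / (2 * A) with hε
  have hεpos : 0 < ε := div_pos (by linarith) (by linarith)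
  have hεA : ε * A = -v x / 2 := by
    rw [hε]
    field_simp
  set w : E3 → ℝ := fun y => v y + ε * (A - Real.exp (Λ * y 0)) with hw
  have hwc : ContinuousOn w (closure Ω) :=
    hcont.add (continuousOn_const.mul (continuousOn_const.sub hcexp.continuousOn))
  obtain ⟨m, hm, hmin⟩ := hcomp.exists_isMinOn ⟨x, hx⟩ hwc
  have hwx : w x < 0 := by
    have h1 := Real.exp_pos (Λ * x 0)
    have h2 : ε * (A - Real.exp (Λ * x 0)) < ε * A := by
      apply mul_lt_mul_of_pos_left _ hεpos
      linarith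
    have h3 : w x = v x + ε * (A - Real.exp (Λ * x 0)) := rfl
    rw [hεA] at h2
    linarith
  have hwm : w m < 0 := lt_of_le_of_lt (hmin hx) hwx
  have hmΩ : m ∈ Ω := by
    have h1 : m ∈ interior Ω ∪ frontier Ω := by
      rw [← closure_eq_interior_union_frontier]
      exact hm
    rcases h1 with h1 | h1
    · exact interior_subset h1
    · exfalso
      have h2 := hfr m h1
      have h3 : 0 ≤ ε * (A - Real.exp (Λ * m 0)) :=
        mul_nonneg hεpos.le (sub_nonneg.mpr (hA m hm))
      have h4 : w m = v m + ε * (A - Real.exp (Λ * m 0)) := rfl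
      linarith
  have hHD := (HD2.mk' (hcd m hmΩ)).add (((HD2.const A m).sub (HD2.expCoord Λ m)).const_mul ε)
  have hlocal : IsLocalMin w m := hmin.isLocalMin (mem_of_superset (hΩ.mem_nhds hmΩ) subset_closure)
  have hHD' : HD2 w m _ _ := hHD
  have h1 : 0 ≤ Δ w m := lap_nonneg hHD'.cd hlocal
  have h2 : pd 0 w m = 0 := by
    rw [pd, hlocal.fderiv_eq_zero]
    rfl
  have h3 : Δ w m = Δ v m + ε * (0 - Λ ^ 2 * Real.exp (Λ * m 0)) := hHD'.lap
  have h4 : pd 0 w m = pd 0 v m + ε * (0 - Λ * Real.exp (Λ * m 0)) := by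
    rw [hHD'.pd 0]
    simp
  have h5 := hL m hmΩ
  have h6 : -g m ≤ max M 0 := by
    have := hg m hmΩ
    have h7 := neg_abs_le (g m)
    have h8 := le_max_left M 0
    linarith
  have h7 : 1 ≤ Λ + 2 * g m := by
    rw [hΛ]
    linarith
  have h8 : 0 < ε * Λ * (Λ + 2 * g m) * Real.exp (Λ * m 0) := by
    have := Real.exp_pos (Λ * m 0)
    have h9 : 0 < Λ := by linarith
    have h10 : 0 < Λ + 2 * g m := by linarith
    positivity
  have h9 : Δ w m + 2 * g m * pd 0 w m = (Δ v m + 2 * g m * pd 0 v m) -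
      ε * Λ * (Λ + 2 * g m) * Real.exp (Λ * m 0) := by
    rw [h3, h4]
    ring
  rw [h2, mul_zero, add_zero] at h9
  linarith

end Pool.Agent.Helper94.BG
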